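import Pool.Agent.PDN.Stmts

set_option autoImplicit false

open Equiv

namespace Pool.Agent.PDN.H56

open Pool.Agent.PDN

variable {V : Type} (T : Tri V)

theorem cyc2 {u v w : V} (h : T.f u v w) : T.f w u v := T.cyc (T.cyc h)

theorem pre_uniq {u v v' w : V} (h : T.f u v w) (h' : T.f u v' w) : v = v' :=
  T.uniq (cyc2 T h) (cyc2 T h')

theorem pre_ex {u w : V} (h : T.Adj u w) : ∃ v, T.f u v w := by
  obtain ⟨z, hz⟩ := h
  obtain ⟨w', hw'⟩ := T.opp hz
  exact ⟨w', T.cyc hw'⟩

theorem nxt_adj {u v w : V} (h : T.f u v w) : T.Adj u w := T.adj_symm ⟨v, cyc2 T h⟩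

noncomputable def nxt (d : T.graph.Dart) : V := Classical.choose (show T.Adj d.fst d.snd from d.adj)

theorem nxt_spec (d : T.graph.Dart) : T.f d.fst d.snd (nxt T d) :=
  Classical.choose_spec (show T.Adj d.fst d.snd from d.adj)

noncomputable def rot (d : T.graph.Dart) : T.graph.Dart :=
  ⟨(d.fst, nxt T d), nxt_adj T (nxt_spec T d)⟩

theorem rot_fst (d : T.graph.Dart) : (rot T d).fst = d.fst := rfl

theorem rot_snd (d : T.graph.Dart) : T.f d.fst d.snd (rot T d).snd := nxt_spec T d

theorem dart_ext {d e : T.graph.Dart} (h1 : d.fst = e.fst) (h2 : d.snd = e.snd) : d = e :=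
  SimpleGraph.Dart.ext _ _ (Prod.ext h1 h2)

theorem rot_bij : Function.Bijective (rot T) := by
  constructor
  · intro d e h
    have h1 : (rot T d).fst = (rot T e).fst := congrArg (fun x : T.graph.Dart => x.fst) h
    rw [rot_fst, rot_fst] at h1
    have h2 : (rot T d).snd = (rot T e).snd := by rw [h]
    have h3 := rot_snd T d
    have h4 := rot_snd T e
    rw [← h1, ← h2] at h4
    exact dart_ext T h1 (pre_uniq T h3 h4)
  · intro e
    obtain ⟨v, hv⟩ := pre_ex T (show T.Adj e.fst e.snd from e.adj)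
    refine ⟨⟨(e.fst, v), ⟨e.snd, hv⟩⟩, ?_⟩
    apply dart_ext
    · rfl
    · exact T.uniq (rot_snd T ⟨(e.fst, v), ⟨e.snd, hv⟩⟩) hv

noncomputable def ro : Perm T.graph.Dart := Equiv.ofBijective (rot T) (rot_bij T)

theorem ro_fst (d : T.graph.Dart) : (ro T d).fst = d.fst := rfl

theorem ro_snd (d : T.graph.Dart) : T.f d.fst d.snd (ro T d).snd := nxt_spec T d

theorem ro_cycle (u : V) {v w : V} (h : Relation.ReflTransGen (T.f u) v w) :
    ∀ d e : T.graph.Dart, d.fst = u → d.snd = v → e.fst = u → e.snd = w → (ro T).SameCycle d e := by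
  induction h using Relation.ReflTransGen.head_induction_on with
  | refl =>
    intro d e h1 h2 h3 h4
    have h5 : d = e := dart_ext T (h1.trans h3.symm) (h2.trans h4.symm)
    rw [h5]
  | head h _ ih =>
    intro d e h1 h2 h3 h4
    have h5 := ro_snd T d
    rw [h1, h2] at h5
    have h6 : (ro T d).snd = _ := T.uniq h5 h
    have h7 := ih (ro T d) e h1 h6 h3 h4
    exact (Perm.sameCycle_apply_left).1 h7

theorem ph_apply (d : T.graph.Dart) : facePerm (ro T) d = ro T d.symm := rfl

theorem ph_fst (d : T.graph.Dart) : (facePerm (ro T) d).fst = d.snd := rfl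

theorem ph_snd (d : T.graph.Dart) : T.f d.snd d.fst (facePerm (ro T) d).snd := ro_snd T d.symm

theorem ph_ph_fst (d : T.graph.Dart) :
    T.f d.snd d.fst (facePerm (ro T) (facePerm (ro T) d)).fst := ph_snd T d

theorem ph_ph_snd (d : T.graph.Dart) : (facePerm (ro T) (facePerm (ro T) d)).snd = d.fst := by
  have h1 := ph_snd T d
  have h2 := ph_snd T (facePerm (ro T) d)
  rw [ph_fst] at h2
  exact T.uniq h2 (cyc2 T h1)

theorem ph3 (d : T.graph.Dart) : facePerm (ro T) (facePerm (ro T) (facePerm (ro T) d)) = d := by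
  apply dart_ext
  · rw [ph_fst, ph_ph_snd]
  · rw [ph_ph_snd, ph_fst]

theorem ph_ne (d : T.graph.Dart) : facePerm (ro T) d ≠ d := by
  intro h
  have h1 : (facePerm (ro T) d).fst = d.fst := congrArg (fun x : T.graph.Dart => x.fst) h
  rw [ph_fst] at h1
  exact d.adj.ne h1.symm

theorem ph_ph_ne (d : T.graph.Dart) : facePerm (ro T) (facePerm (ro T) d) ≠ d := by
  intro h
  have h1 := congrArg (facePerm (ro T)) h
  rw [ph3] at h1
  exact ph_ne T d h1.symm

/-- powers with exponents `0, 1, 2` -/
noncomputable def pw (i : Fin 3) (d : T.graph.Dart) : T.graph.Dart := (facePerm (ro T) ^ (i : ℕ)) d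

theorem pw3 : facePerm (ro T) ^ 3 = 1 := by
  ext1 d
  exact ph3 T d

theorem pw_zpow (k : ℤ) (d : T.graph.Dart) : ∃ i : Fin 3, (facePerm (ro T) ^ k) d = pw T i d := by
  have h1 : 0 ≤ k % 3 := Int.emod_nonneg _ (by norm_num)
  have h2 : k % 3 < 3 := Int.emod_lt_of_pos _ (by norm_num)
  refine ⟨⟨(k % 3).toNat, by lia⟩, ?_⟩
  have h3 : facePerm (ro T) ^ k = facePerm (ro T) ^ (k % 3).toNat := by
    have h4 : k = 3 * (k / 3) + (k % 3).toNat := by lia
    conv_lhs => rw [h4]
    rw [zpow_add, zpow_mul, zpow_natCast]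
    have h5 : facePerm (ro T) ^ (3 : ℤ) = 1 := by
      exact_mod_cast pw3 T
    rw [h5, one_zpow, one_mul]
  rw [h3]
  rfl

theorem pw_inj (d : T.graph.Dart) {i j : Fin 3} (h : pw T i d = pw T j d) : i = j := by
  have h1 := ph_ne T d
  have h2 := ph_ph_ne T d
  have h3 : facePerm (ro T) (facePerm (ro T) d) ≠ facePerm (ro T) d := ph_ne T _
  have e0 : pw T 0 d = d := rfl
  have e1 : pw T 1 d = facePerm (ro T) d := rfl
  have e2 : pw T 2 d = facePerm (ro T) (facePerm (ro T) d) := rfl
  fin_cases i <;> fin_cases j <;> first | rfl | (exfalso; revert h; simp only [Fin.mk_one, Fin.reduceFinMk]; rw [e0, e1] ; intro h; first | exact h1 h | exact h1 h.symm) | (exfalso; revert h; simp only [Fin.mk_one, Fin.reduceFinMk]; rw [e0, e2] ; intro h; first | exact h2 h | exact h2 h.symm) | (exfalso; revert h; simp only [Fin.mk_one, Fin.reduceFinMk]; rw [e1, e2] ; intro h; first | exact h3 h | exact h3 h.symm)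

theorem pw_mk (i : Fin 3) (d : T.graph.Dart) :
    (Quotient.mk (Perm.SameCycle.setoid (facePerm (ro T))) (pw T i d)) =
      Quotient.mk (Perm.SameCycle.setoid (facePerm (ro T))) d := by
  apply Quotient.sound
  show (facePerm (ro T)).SameCycle (pw T i d) d
  exact (Perm.sameCycle_pow_left).2 (Perm.SameCycle.refl _ _)

theorem faces3 : Nat.card T.graph.Dart = Nat.card (Faces (ro T)) * 3 := by
  have h : Function.Bijective (fun p : Faces (ro T) × Fin 3 => pw T p.2 (Quotient.out p.1)) := by
    constructor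
    · rintro ⟨q, i⟩ ⟨q', j⟩ h
      have h' : pw T i (Quotient.out q) = pw T j (Quotient.out q') := h
      have h1 := congrArg (Quotient.mk (Perm.SameCycle.setoid (facePerm (ro T)))) h'
      rw [pw_mk, pw_mk, Quotient.out_eq, Quotient.out_eq] at h1
      subst h1
      rw [pw_inj T _ h']
    · intro d
      have h1 : (facePerm (ro T)).SameCycle
          (Quotient.out (Quotient.mk (Perm.SameCycle.setoid (facePerm (ro T))) d)) d := by
        have h0 := Quotient.out_eq (Quotient.mk (Perm.SameCycle.setoid (facePerm (ro T))) d)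
        exact Quotient.exact h0
      obtain ⟨k, hk⟩ := h1
      obtain ⟨i, hi⟩ := pw_zpow T k
        (Quotient.out (Quotient.mk (Perm.SameCycle.setoid (facePerm (ro T))) d))
      exact ⟨(Quotient.mk (Perm.SameCycle.setoid (facePerm (ro T))) d, i), hi.symm.trans hk⟩
  rw [← Nat.card_congr (Equiv.ofBijective _ h), Nat.card_prod, Nat.card_fin]

def dartEquiv : T.graph.Dart ≃ {p : V × V // T.Adj p.1 p.2} where
  toFun d := ⟨d.toProd, d.adj⟩
  invFun p := ⟨p.1, p.2⟩
  left_inv _ := rfl
  right_inv _ := rfl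

open Classical in
theorem tpl : Pool.Agent.PDN.TplStmt := by
  intro V _ T hc ht
  refine ⟨ro T, fun d => rfl, ?_, ?_⟩
  · intro d e h
    have h1 : T.Adj d.fst d.snd := d.adj
    have h2 : T.Adj d.fst e.snd := by
      rw [h]
      exact e.adj
    exact ro_cycle T d.fst (T.link h1 h2) d e rfl rfl h.symm rfl
  · have hD : Nat.card T.graph.Dart + 12 = 6 * Nat.card V := by
      rw [Nat.card_congr (dartEquiv T)]
      exact ht
    have hE : Nat.card T.graph.Dart = 2 * Nat.card T.graph.edgeSet := by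
      rw [Nat.card_eq_fintype_card, SimpleGraph.dart_card_eq_twice_card_edges,
        Nat.card_eq_fintype_card, ← SimpleGraph.edgeFinset_card]
    have hF := faces3 T
    have hC : Nat.card T.graph.ConnectedComponent = 1 := by
      have := hc.preconnected.subsingleton_connectedComponent
      have := hc.nonempty
      have h1 : Nonempty T.graph.ConnectedComponent := ⟨T.graph.connectedComponentMk (Classical.arbitrary V)⟩
      exact Nat.card_eq_one_iff_unique.2 ⟨inferInstance, h1⟩
    have hV2 : 2 ≤ Nat.card V := by lia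
    have hI : Nat.card {v : V // ∀ w, ¬ T.graph.Adj v w} = 0 := by
      have h1 : IsEmpty {v : V // ∀ w, ¬ T.graph.Adj v w} := by
        constructor
        rintro ⟨v, hv⟩
        have h3 : Nontrivial V := by
          rw [Nat.card_eq_fintype_card] at hV2
          exact Fintype.one_lt_card_iff_nontrivial.1 hV2
        obtain ⟨w, hw⟩ := hc.preconnected.exists_adj_of_nontrivial v
        exact hv w hw
      exact Nat.card_of_isEmpty
    rw [hC, hI]
    lia

end Pool.Agent.PDN.H56
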